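import Pool.Agent.RCM.Stmts

/-! Squad RCM, row RMV: `z` removable elements. -/

set_option autoImplicit false

namespace Pool.Agent.RCM.H41

open Set

universe u

lemma indep_ncard_le {E : Type u} [Finite E] (M : Matroid E) (A B : Set E) (hA : M.Indep A)
    (hAB : A ⊆ M.closure B) : A.ncard ≤ B.ncard := by
  have h1 : A.encard ≤ B.encard := by
    rw [← hA.eRk_eq_encard]
    calc M.eRk A ≤ M.eRk (M.closure B) := M.eRk_mono hAB
      _ = M.eRk B := M.eRk_closure_eq B
      _ ≤ B.encard := M.eRk_le_encard B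
  rw [← A.toFinite.cast_ncard_eq, ← B.toFinite.cast_ncard_eq] at h1
  exact_mod_cast h1

theorem rmv (MVB : MvbStmt.{u}) (CIR : CirStmt.{u}) : RmvStmt.{u} := by
  intro E K _ _ M N κ s t P X T c z hC hM hS hcX hcT hz
  set Y : Set E := {y ∈ T | ∃ x, κ x = c ∧ x ∉ M.closure (T ∪ P) ∧ x ∉ N.closure (T \ {y})}
    with hY
  have hYT : Y ⊆ T := fun y hy => hy.1
  refine ⟨?_, ?_⟩
  · set C : Set E := κ ⁻¹' {c} with hCd
    set A : Set E := C \ M.closure (T ∪ P) with hA
    have h1 : (C ∩ M.closure (T ∪ P)).ncard ≤ t + P.ncard := by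
      refine (indep_ncard_le M _ (T ∪ P) ((hC.indM c).subset inter_subset_left)
        inter_subset_right).trans ?_
      refine (ncard_union_le T P).trans ?_
      rw [hS.card]
    have h2 : (C ∩ M.closure (T ∪ P)).ncard + A.ncard = C.ncard :=
      ncard_inter_add_ncard_sdiff_eq_ncard C (M.closure (T ∪ P)) C.toFinite
    have h3 : A.ncard ≤ Y.ncard := by
      refine indep_ncard_le N A Y ((hC.indN c).subset sdiff_subset) ?_
      rintro x ⟨hx, hx'⟩
      have hxc : κ x = c := hx
      have h4 : x ∈ N.closure T :=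
        (MVB E K M N κ s t P X T hC hM hS).1 x (by rw [hxc]; exact hcT) hx'
      have h5 := CIR E N T (T \ Y) x hS.ri.indN h4 (by
        rintro y ⟨hy, -, hy'⟩
        by_contra h
        exact hy' ⟨hy, x, hxc, hx', h⟩)
      rwa [Set.sdiff_sdiff_right_self, inter_eq_self_of_subset_right hYT] at h5
    have h6 : s ≤ C.ncard := hC.card c
    omega
  · rintro y ⟨hy, x, hxc, hx1, hx2⟩
    refine ⟨hy, fun h => ?_⟩
    have h1 := h (insert x (T \ {y})) (Relation.ReflTransGen.single
      ⟨x, y, hy, by rw [hxc]; exact hcT, by rw [hxc]; exact hcX, hx1, hx2, rfl⟩)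
    rcases h1 with h1 | h1
    · refine hcT ⟨y, hy, ?_⟩
      rw [h1, hxc]
    · exact h1.2 rfl

end Pool.Agent.RCM.H41
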